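import Mathlib
import Pool.Agent.R365.ST.Main

/-!
# MP_c59389_nt: the stable height of the Weil restrictions of the elliptic curves with full two-torsion
is `(1 / 6) log N + O(1)` in probability, with exponential tails

Frey's inequality says that `h_F(A) ≤ (n / 2 + ε) log N_A + c` for all abelian varieties `A` over
`ℚ` of dimension `n`, with the stable Faltings height. Let `L` be any number field of degree `n`, and
consider the Weil restrictions `A = Res_{L/ℚ} E` of ALL elliptic curves `E` over `L` with full
`L`-rational two-torsion (all quadratic twists, all heights), up to isomorphism over `L`. Then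
`h_F(A) = n h_F(E)` (over the algebraic closure `A` is the product of the conjugates of `E`), and
`N_A = N(f_E) |D_L| ^ 2` (Milne) is the norm of the conductor of `E` up to a constant. The curves are
ordered by this norm, `cond E` (its part prime to two). We show:

1. there are between `c X ^ (2 / 3)` and `C X ^ (2 / 3)` curves with `cond E ≤ X`;
2. the number of those with `h_F(A) ≥ (1 / 6) log (cond E) + t` is at most
   `C (exp (- s t) + X ^ (- ν)) X ^ (2 / 3)`, for every `s < 2`, uniformly in `t ≥ 0`;
3. it is at least `c exp (- 2 t) X ^ (2 / 3)` for all `t ≥ 0` with `C exp (3 t) ≤ X`;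
4. the number of those with `h_F(A) ≤ (1 / 6) log (cond E) - t` is at most
   `C (exp (- s t) + X ^ (- ν)) X ^ (2 / 3)`, for every `s < 1`, uniformly in `t ≥ 0`.

So `h_F(A) - (1 / 6) log N_A` is bounded in probability, whereas Frey asks for the slope
`n / 2 + ε > 1 / 6` for all `A`, and the exponent of the upper tail is exactly `2`.

The proof combines a sharp form of the theorem of this project on the points of the line
`x + y + z = 0` ordered by their radical, with prescribed primes, summed over the additive primes of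
the twists; the class group and the units; the formula of Silverman for the height; and, for
the lower bound, numbers divisible by a high power of a fixed prime.
-/

set_option autoImplicit false

open NumberField IsDedekindDomain
open scoped Classical

namespace Pool.Agent.Results.MP_c59389_nt.StableHeightInProbability

/-- the modular invariant `j(τ) = E₄(τ) ^ 3 / Δ(τ) = 1 / q + 744 + ⋯` -/
noncomputable def jInv (τ : UpperHalfPlane) : ℂ :=
  ModularForm.E₄ τ ^ 3 / ModularForm.discriminant τ

/-- the archimedean term `- log (|Δ(τ)| (Im τ) ^ 6)` of the Faltings height -/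
noncomputable def arch (τ : UpperHalfPlane) : ℝ :=
  -Real.log (‖ModularForm.discriminant τ‖ * τ.im ^ 6)

/-- the points `τ w` have modular invariant `j` -/
def IsPeriod {L : Type} [Field L] [NumberField L] (j : L)
    (τ : InfinitePlace L → UpperHalfPlane) : Prop := ∀ w, jInv (τ w) = w.embedding j

/-- the stable Faltings height of the Weil restriction `A = Res_{L/ℚ} E` of an elliptic curve `E`
over `L` of invariant `j`, where the points `τ w` have invariant `j` (up to a constant which depends
on the normalisation of the metric and on `[L : ℚ]` only): `12 h_F(A)` is the sum of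
`log max(|j|_v, 1)` over the finite places `v` of `L` and of the archimedean terms -/
noncomputable def stableHeight {L : Type} [Field L] [NumberField L] (j : L)
    (τ : InfinitePlace L → UpperHalfPlane) : ℝ :=
  (∑ᶠ v : HeightOneSpectrum (𝓞 L), Real.log (max (FinitePlace.mk v j) 1) +
    ∑ w : InfinitePlace L, (w.mult : ℝ) * arch (τ w)) / 12

/-- full rational two-torsion: the polynomial of the first coordinates of the points of order two
has three roots -/
def FullTwo {L : Type} [Field L] (E : WeierstrassCurve L) : Prop :=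
  ∃ e : Fin 3 → L, Function.Injective e ∧
    ∀ i, 4 * e i ^ 3 + E.b₂ * e i ^ 2 + 2 * E.b₄ * e i + E.b₆ = 0

/-- good reduction at `v`: some Weierstrass equation over `L` of the curve is integral at `v` and
has a discriminant which is a unit at `v` -/
def GoodAt {L : Type} [Field L] [NumberField L] (v : HeightOneSpectrum (𝓞 L))
    (E : WeierstrassCurve L) : Prop :=
  ∃ C : WeierstrassCurve.VariableChange L,
    v.valuation L (C • E).a₁ ≤ 1 ∧ v.valuation L (C • E).a₂ ≤ 1 ∧ v.valuation L (C • E).a₃ ≤ 1 ∧
    v.valuation L (C • E).a₄ ≤ 1 ∧ v.valuation L (C • E).a₆ ≤ 1 ∧ v.valuation L (C • E).Δ = 1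

/-- semistable (good or multiplicative) reduction at `v`: some Weierstrass equation over `L` of the
curve is integral at `v` and its discriminant or its invariant `c₄` is a unit at `v` -/
def SemistableAt {L : Type} [Field L] [NumberField L] (v : HeightOneSpectrum (𝓞 L))
    (E : WeierstrassCurve L) : Prop :=
  ∃ C : WeierstrassCurve.VariableChange L,
    v.valuation L (C • E).a₁ ≤ 1 ∧ v.valuation L (C • E).a₂ ≤ 1 ∧ v.valuation L (C • E).a₃ ≤ 1 ∧
    v.valuation L (C • E).a₄ ≤ 1 ∧ v.valuation L (C • E).a₆ ≤ 1 ∧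
    (v.valuation L (C • E).Δ = 1 ∨ v.valuation L (C • E).c₄ = 1)

/-- the product of the norms of the primes `v` not above two of bad reduction -/
noncomputable def badProduct {L : Type} [Field L] [NumberField L] (E : WeierstrassCurve L) : ℝ :=
  ∏ᶠ v ∈ {v : HeightOneSpectrum (𝓞 L) | ¬ GoodAt v E ∧ v.valuation L 2 = 1},
    (Ideal.absNorm v.asIdeal : ℝ)

/-- the part prime to two of the norm of the conductor of a curve with full two-torsion: the product
over the primes `v` not above two of `N(v)` for multiplicative and `N(v) ^ 2` for additive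
reduction -/
noncomputable def cond {L : Type} [Field L] [NumberField L] (E : WeierstrassCurve L) : ℝ :=
  badProduct E *
  ∏ᶠ v ∈ {v : HeightOneSpectrum (𝓞 L) | ¬ SemistableAt v E ∧ v.valuation L 2 = 1},
    (Ideal.absNorm v.asIdeal : ℝ)

/-- the Weierstrass curves over `L` up to isomorphism over `L` (changes of variables) -/
abbrev IsoClass (L : Type) [Field L] : Type :=
  Quotient (MulAction.orbitRel (WeierstrassCurve.VariableChange L) (WeierstrassCurve L))

/-- the isomorphism classes of the elliptic curves over `L` with full rational two-torsion and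
conductor (outside two) at most `X` -/
def Curves (L : Type) [Field L] [NumberField L] (X : ℝ) : Set (IsoClass L) :=
  {q | ∃ E : WeierstrassCurve L, Quotient.mk'' E = q ∧ E.Δ ≠ 0 ∧ FullTwo E ∧ cond E ≤ X}

/-- the classes of the curves `E` with conductor at most `X` and
`h_F(A) ≥ (1 / 6) log (cond E) + t`, `A = Res_{L/ℚ} E` -/
def Above (L : Type) [Field L] [NumberField L] (t X : ℝ) : Set (IsoClass L) :=
  {q | ∃ (E : WeierstrassCurve L) (τ : InfinitePlace L → UpperHalfPlane), Quotient.mk'' E = q ∧
    E.Δ ≠ 0 ∧ FullTwo E ∧ cond E ≤ X ∧ IsPeriod (E.c₄ ^ 3 / E.Δ) τ ∧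
    1 / 6 * Real.log (cond E) + t ≤ stableHeight (E.c₄ ^ 3 / E.Δ) τ}

/-- the classes of the curves `E` with conductor at most `X` and
`h_F(A) ≤ (1 / 6) log (cond E) - t`, `A = Res_{L/ℚ} E` -/
def Below (L : Type) [Field L] [NumberField L] (t X : ℝ) : Set (IsoClass L) :=
  {q | ∃ (E : WeierstrassCurve L) (τ : InfinitePlace L → UpperHalfPlane), Quotient.mk'' E = q ∧
    E.Δ ≠ 0 ∧ FullTwo E ∧ cond E ≤ X ∧ IsPeriod (E.c₄ ^ 3 / E.Δ) τ ∧
    stableHeight (E.c₄ ^ 3 / E.Δ) τ ≤ 1 / 6 * Real.log (cond E) - t}

/-- **The stable height is `(1 / 6) log N + O(1)` in probability.** -/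
theorem result (L : Type) [Field L] [NumberField L] :
    (∃ c C X₀ : ℝ, 0 < c ∧ ∀ X : ℝ, X₀ ≤ X → (Curves L X).Finite ∧
      c * X ^ (2 / 3 : ℝ) ≤ ((Curves L X).ncard : ℝ) ∧
      ((Curves L X).ncard : ℝ) ≤ C * X ^ (2 / 3 : ℝ)) ∧
    (∀ s : ℝ, 0 ≤ s → s < 2 → ∃ C ν : ℝ, 0 < ν ∧ ∀ X t : ℝ, 1 ≤ X → 0 ≤ t →
      ((Above L t X).ncard : ℝ) ≤ C * (Real.exp (-(s * t)) + X ^ (-ν)) * X ^ (2 / 3 : ℝ)) ∧
    (∃ c C : ℝ, 0 < c ∧ ∀ X t : ℝ, 0 ≤ t → C * Real.exp (3 * t) ≤ X →
      c * Real.exp (-(2 * t)) * X ^ (2 / 3 : ℝ) ≤ ((Above L t X).ncard : ℝ)) ∧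
    (∀ s : ℝ, 0 ≤ s → s < 1 → ∃ C ν : ℝ, 0 < ν ∧ ∀ X t : ℝ, 1 ≤ X → 0 ≤ t →
      ((Below L t X).ncard : ℝ) ≤ C * (Real.exp (-(s * t)) + X ^ (-ν)) * X ^ (2 / 3 : ℝ)) := by
  refine ⟨Pool.Agent.R365.ST.sh_all L, fun s hs0 hs1 => ?_, ?_, fun s hs0 hs1 => ?_⟩
  · obtain ⟨C, ν, -, hν, h⟩ := Pool.Agent.R365.ST.up_count L s hs0 hs1
    exact ⟨C, ν, hν, fun X t hX _ => h X t hX⟩
  · obtain ⟨c, C, hc, -, h⟩ := Pool.Agent.R365.ST.up_lower L
    refine ⟨c, C, hc, fun X t ht hX => ?_⟩
    have := h X t ht hX
    rw [← mul_assoc] at this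
    exact this
  · obtain ⟨C, ν, -, hν, h⟩ := Pool.Agent.R365.ST.dn_count L s hs0 hs1
    exact ⟨C, ν, hν, fun X t hX _ => h X t hX⟩

end Pool.Agent.Results.MP_c59389_nt.StableHeightInProbability
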