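import Pool.Agent.Results.MP_c59389_nt.WeilRestrictions
import Pool.Agent.R482.ST.Star

/-!
# Frey's inequality for all Weil restrictions with height near powers, orbits and other sequences

Let `f_k`, `k = 0, 1, 2, …`, be positive functions on `(a₀, ∞)`, `a₀ ≥ 0`, such that `f_k(t) / t` is nondecreasing, and such
that the sequence `f_k(t)` has exponent of convergence at most `τ` for each `t > a₀`: for instance `f_k(t) = v_k t`
(dilatations; `τ` the exponent of convergence of `v_k > 0`), `f_k(t) = t ^ (v_k)` for exponents `v_k ≥ 1` (`τ = 0`), or the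
orbits `f_k(t) = g (g (⋯ g (t)))` of any map `g` with `g(t) > t` and `g(t) / t` nondecreasing (`τ = 0`).
Let `n ≥ 2`, `κ > 0` and `θ < 1`. For all `α > a₀` outside a set of Hausdorff dimension at most
`(e n / ((n + 1) κ) + τ) / (1 - θ)` (`e 2 = e 3 = 2 / 3`) and all `c`, `κ'`, for all but finitely many `k`, Frey's inequality
`h_F(A) ≤ κ log N_A - c` holds for ALL Weil restrictions `A = Res_{L/ℚ} E`, where `L` is any number field of degree `n` and
`E` an elliptic curve over `L` with full two-torsion, such that `H = exp (h_F(A))` satisfies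
`|H ^ (n + 1) - f_k(α)| ≤ κ' f_k(α) ^ θ`. For the slope `κ = n / 2` of Frey's conjecture and `τ = 0`, `θ = 0` the exceptional
set has dimension at most `2 / 9` for `n = 2`. Letting `κ` tend to infinity we find for all `α` outside a set of dimension at
most `τ / (1 - θ)`, and for ALL `n ≥ 2`, constants `κ` and `C` with `h_F(A) ≤ κ log N_A + C` for ALL `A` in the windows.
-/

set_option autoImplicit false

namespace Pool.Agent.Results.MP_c59389_nt.StarshapedFrey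

open NumberField IsDedekindDomain Filter Topology
open WeilRestrictions (jInv faltings FullTwo badNorm Violators expo IsPeriod)

/-- the functions `f n` are positive on `(a, ∞)`, `a ≥ 0`, and `f n x / x` is nondecreasing there -/
def Starshaped (a : ℝ) (f : ℕ → ℝ → ℝ) : Prop :=
  0 ≤ a ∧ ∀ n : ℕ, ∀ x y : ℝ, a < x → x ≤ y → 0 < f n x ∧ f n x / x ≤ f n y / y

/-- for each `x > a` the exponent of convergence of the sequence `f n x` is at most `τ` -/
def ExpLe (a : ℝ) (f : ℕ → ℝ → ℝ) (τ : ℝ) : Prop :=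
  ∀ x : ℝ, a < x → ∀ t : ℝ, τ < t → Summable (fun n : ℕ => (f n x) ^ (-t))

/-- `n h_F(E)` for an elliptic curve `E` with modular invariant `j` over the number field `K` of degree `n`, where the points
of the upper half plane in Silverman's formula are chosen by the function `P` -/
noncomputable def hF (P : ℂ → UpperHalfPlane) {K : Type} [Field K] [NumberField K] (j : K) : ℝ :=
  (Module.finrank ℚ K : ℝ) * faltings j (fun w => P (w.embedding j))

/-- a number field inside the algebraic closure of `ℚ` and an element -/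
abbrev Num : Type := Σ K : {K : IntermediateField ℚ (AlgebraicClosure ℚ) // NumberField K}, K.1

/-- the height of the Weil restriction -/
noncomputable def ht (P : ℂ → UpperHalfPlane) (p : Num) : ℝ :=
  haveI : NumberField p.1.1 := p.1.2
  hF P p.2

/-- the invariants of the curves which violate the inequality -/
def Exc (P : ℂ → UpperHalfPlane) (n : ℕ) (κ c : ℝ) : Set Num :=
  {p | haveI : NumberField p.1.1 := p.1.2
    Module.finrank ℚ p.1.1 = n ∧ ∃ E : WeierstrassCurve p.1.1, E.Δ ≠ 0 ∧ FullTwo E ∧ E.c₄ ^ 3 / E.Δ = p.2 ∧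
      κ * Real.log (badNorm E * |(NumberField.discr p.1.1 : ℝ)| ^ 2) + c < hF P p.2}

lemma count {P : ℂ → UpperHalfPlane} (hP : ∀ z, jInv (P z) = z) {n : ℕ} (hn : 2 ≤ n) {κ e c : ℝ} (hκ : 0 < κ)
    (H : ∀ δ : ℝ, 0 < δ → ∃ M : ℝ, ∀ B : ℝ, 1 ≤ B → (Violators n κ c B).Finite ∧
      ((Violators n κ c B).ncard : ℝ) ≤ M * B ^ (e / κ + δ)) (ε : ℝ) (hε : 0 < ε) :
    ∃ C : ℝ, ∀ X : ℝ, 1 ≤ X → {p | p ∈ Exc P n κ c ∧ Real.exp (ht P p) ^ (n + 1) ≤ X}.Finite ∧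
      ({p | p ∈ Exc P n κ c ∧ Real.exp (ht P p) ^ (n + 1) ≤ X}.ncard : ℝ) ≤
        C * X ^ (max e 0 / ((n + 1) * κ) + ε) := by
  have hN0 : (0 : ℝ) < (n : ℝ) + 1 := by positivity
  obtain ⟨M, hM⟩ := H (((n : ℝ) + 1) * ε) (by positivity)
  refine ⟨|M|, fun X hX => ?_⟩
  have hX0 : 0 < X := by linarith
  set B : ℝ := X ^ (1 / ((n : ℝ) + 1)) with hB
  have hB1 : 1 ≤ B := Real.one_le_rpow hX (by positivity)
  have hB0 : 0 < B := by linarith
  obtain ⟨hfin, hcard⟩ := hM B hB1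
  set f : Num → IntermediateField ℚ (AlgebraicClosure ℚ) × AlgebraicClosure ℚ :=
    fun p => (p.1.1, (p.2 : AlgebraicClosure ℚ)) with hf
  have hinj : Function.Injective f := by
    rintro ⟨⟨K, hK⟩, x⟩ ⟨⟨L, hL⟩, y⟩ h
    rw [hf, Prod.mk.injEq] at h
    obtain ⟨h1, h2⟩ := h
    dsimp only at h1 h2
    subst h1
    have h3 : x = y := Subtype.ext h2
    subst h3
    rfl
  have himg : f '' {p | p ∈ Exc P n κ c ∧ Real.exp (ht P p) ^ (n + 1) ≤ X} ⊆ Violators n κ c B := by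
    rintro _ ⟨⟨⟨K, hK⟩, j⟩, ⟨⟨h1, E, h2, h3, h4, h5⟩, h6⟩, rfl⟩
    have h7 : Real.exp (ht P ⟨⟨K, hK⟩, j⟩) ^ (n + 1) = Real.exp (((n : ℝ) + 1) * ht P ⟨⟨K, hK⟩, j⟩) := by
      rw [← Real.exp_nat_mul]
      push_cast
      rfl
    rw [h7, ← Real.le_log_iff_exp_le hX0] at h6
    have h8 : Real.log B = Real.log X / ((n : ℝ) + 1) := by
      rw [hB, Real.log_rpow hX0]
      ring
    have h9 : hF P j = (n : ℝ) * faltings j (fun w => P (w.embedding j)) := by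
      unfold hF
      rw [show Module.finrank ℚ K = n from h1]
    refine ⟨hK, j, E, fun w => P (w.embedding j), rfl, h1, h2, h3, h4, fun w => hP _, ?_, ?_⟩
    · rw [← h9, h8, le_div_iff₀ hN0]
      calc hF P j * ((n : ℝ) + 1) = ((n : ℝ) + 1) * ht P ⟨⟨K, hK⟩, j⟩ := mul_comm _ _
        _ ≤ _ := h6
    · rw [← h9]
      exact h5
  have hfin2 : {p | p ∈ Exc P n κ c ∧ Real.exp (ht P p) ^ (n + 1) ≤ X}.Finite :=
    Set.Finite.of_finite_image (hfin.subset himg) hinj.injOn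
  refine ⟨hfin2, ?_⟩
  calc ({p | p ∈ Exc P n κ c ∧ Real.exp (ht P p) ^ (n + 1) ≤ X}.ncard : ℝ)
      = ((f '' {p | p ∈ Exc P n κ c ∧ Real.exp (ht P p) ^ (n + 1) ≤ X}).ncard : ℝ) := by
        rw [Set.ncard_image_of_injective _ hinj]
    _ ≤ ((Violators n κ c B).ncard : ℝ) := by exact_mod_cast Set.ncard_le_ncard himg hfin
    _ ≤ M * B ^ (e / κ + ((n : ℝ) + 1) * ε) := hcard
    _ ≤ |M| * B ^ (e / κ + ((n : ℝ) + 1) * ε) :=
        mul_le_mul_of_nonneg_right (le_abs_self M) (Real.rpow_nonneg hB0.le _)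
    _ ≤ |M| * B ^ (max e 0 / κ + ((n : ℝ) + 1) * ε) := by
        apply mul_le_mul_of_nonneg_left _ (abs_nonneg M)
        apply Real.rpow_le_rpow_of_exponent_le hB1
        have h1 : e / κ ≤ max e 0 / κ := div_le_div_of_nonneg_right (le_max_left _ _) hκ.le
        linarith
    _ = |M| * X ^ (max e 0 / ((n + 1) * κ) + ε) := by
        rw [hB, ← Real.rpow_mul hX0.le]
        congr 2
        field_simp

lemma win {P : ℂ → UpperHalfPlane} (hP : ∀ z, jInv (P z) = z) {n : ℕ} (hn : 2 ≤ n) {κ e : ℝ} (hκ : 0 < κ)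
    (H : ∀ c δ : ℝ, 0 < δ → ∃ M : ℝ, ∀ B : ℝ, 1 ≤ B → (Violators n κ c B).Finite ∧
      ((Violators n κ c B).ncard : ℝ) ≤ M * B ^ (e / κ + δ))
    {a : ℝ} {f : ℕ → ℝ → ℝ} {τ θ : ℝ} (hv : Starshaped a f) (hτ : 0 ≤ τ) (hE : ExpLe a f τ) (hθ : θ < 1) :
    ∃ E : Set ℝ, dimH E ≤ ENNReal.ofReal ((max e 0 / ((n + 1) * κ) + τ) / (1 - θ)) ∧
      ∀ α : ℝ, a < α → α ∉ E → ∀ c κ' : ℝ, ∃ k₀ : ℕ, ∀ k : ℕ, k₀ ≤ k → ∀ p ∈ Exc P n κ (-c),
        κ' * (f k α) ^ θ < |Real.exp (ht P p) ^ (n + 1) - f k α| := by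
  have hall : ∀ j : ℕ, ∃ E : Set ℝ, dimH E ≤ ENNReal.ofReal ((max e 0 / ((n + 1) * κ) + τ) / (1 - θ)) ∧
      ∀ α : ℝ, a < α → α ∉ E → ∀ κ' : ℝ, ∃ n0 : ℕ, ∀ k : ℕ, n0 ≤ k → ∀ p ∈ Exc P n κ (-(j : ℝ)),
        κ' * (f k α) ^ θ < |Real.exp (ht P p) ^ (n + 1) - f k α| := fun j =>
    Pool.Agent.R482.ST.windows (Exc P n κ (-(j : ℝ))) (fun p => Real.exp (ht P p) ^ (n + 1)) hv hτ hE
      (div_nonneg (le_max_right _ _) (by positivity)) hθ (fun ε hε => count hP hn hκ (H (-(j : ℝ))) ε hε)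
  choose G hG1 hG2 using hall
  refine ⟨⋃ j, G j, ?_, fun α hα hαE c κ' => ?_⟩
  · rw [dimH_iUnion]
    exact iSup_le hG1
  · obtain ⟨j, hj⟩ := exists_nat_ge c
    obtain ⟨k₀, hk⟩ := hG2 j α hα (fun h => hαE (Set.mem_iUnion.2 ⟨j, h⟩)) κ'
    refine ⟨k₀, fun k hk1 p hp => hk k hk1 p ?_⟩
    obtain ⟨h1, E, h2, h3, h4, h5⟩ := hp
    refine ⟨h1, E, h2, h3, h4, lt_of_le_of_lt ?_ h5⟩
    linarith

lemma nonneg {K : Type} [Field K] [NumberField K] (E : WeierstrassCurve K) :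
    0 ≤ Real.log (badNorm E * |(NumberField.discr K : ℝ)| ^ 2) := by
  apply Real.log_nonneg
  have h1 : 1 ≤ badNorm E := Pool.Agent.TH876.TT.Viol_one_le E
  have h2 : (1 : ℝ) ≤ |(NumberField.discr K : ℝ)| := by
    rw [← Int.cast_abs]
    exact_mod_cast Int.one_le_abs (NumberField.discr_ne_zero K)
  exact one_le_mul_of_one_le_of_one_le h1 (one_le_pow₀ h2)

/-- **Theorem.** There is a function `e ≥ 0` with `e n ≤ max (2 / 3) (expo n / 2)` for `n ≥ 2` (so `e 2 ≤ 2 / 3`,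
`e 3 ≤ 2 / 3`, and `e n ≤ max (2 / 3) ((n + 2) / 8)` for primes) and `e n = O (log ^ 2 n)` such that for each section `P` of the
modular invariant (used to write down Faltings heights), all starshaped functions `f` on `(a, ∞)` of exponent of convergence
at most `τ ≥ 0` and `θ < 1`: (1) For all `n ≥ 2` and `κ > 0` there is a set `E` of Hausdorff dimension at most
`(e n / ((n + 1) κ) + τ) / (1 - θ)` such that for each `α > a` outside `E` and all `c`, `κ'`, for all but finitely many `k`,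
for ALL number fields `L` of degree `n` (in the algebraic closure of `ℚ`) and ALL elliptic curves `E` over `L` with full
two-torsion for which `h = n h_F(E)` satisfies `|exp (h) ^ (n + 1) - f_k(α)| ≤ κ' f_k(α) ^ θ` one has
`h ≤ κ log (badNorm E |D_L| ^ 2) - c`. (2) There is a set `E` of dimension at most `τ / (1 - θ)` such that for each `α > a`
outside `E`, each `κ'` and ALL `n ≥ 2` there are `κ` and `C` with `h ≤ κ log (badNorm E |D_L| ^ 2) + C` for ALL number fields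
`L` of degree `n` and ALL `E` with full two-torsion with `|exp (h) ^ (n + 1) - f_k(α)| ≤ κ' f_k(α) ^ θ` for some `k`.
(3) The functions `v_n x`, `v_n > 0`, are starshaped on `(0, ∞)`, of exponent `τ` if `v` has exponent of convergence at most
`τ`; the functions `x ^ (v_n)`, `v_n ≥ 1`, are starshaped on `(1, ∞)`, of exponent `0` if the sums of `exp (-t v_n)` converge
for `t > 0`; and the iterates of a map `g` with `g(x) > x` for `x > a` and `g(x) / x` nondecreasing are starshaped on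
`(a, ∞)`, of exponent `0`. -/
theorem result :
    (∃ e : ℕ → ℝ, (∀ n, 0 ≤ e n) ∧ (∀ n : ℕ, 2 ≤ n → e n ≤ max (2 / 3) (expo n / 2)) ∧
      (∀ c : ℝ, 1 / (16 * (Real.log 2) ^ 2) < c → ∀ᶠ n : ℕ in Filter.atTop, e n ≤ c * (Real.log n) ^ 2) ∧
      ∀ P : ℂ → UpperHalfPlane, (∀ z, jInv (P z) = z) → ∀ (a : ℝ) (f : ℕ → ℝ → ℝ) (τ θ : ℝ), Starshaped a f → 0 ≤ τ →
        ExpLe a f τ → θ < 1 → ∀ n : ℕ, 2 ≤ n → ∀ κ : ℝ, 0 < κ →
        ∃ E : Set ℝ, dimH E ≤ ENNReal.ofReal ((e n / ((n + 1) * κ) + τ) / (1 - θ)) ∧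
          ∀ α : ℝ, a < α → α ∉ E → ∀ c κ' : ℝ, ∃ k₀ : ℕ, ∀ k : ℕ, k₀ ≤ k →
            ∀ (L : IntermediateField ℚ (AlgebraicClosure ℚ)) [NumberField L] (W : WeierstrassCurve L),
              Module.finrank ℚ L = n → W.Δ ≠ 0 → FullTwo W →
              |Real.exp (hF P (W.c₄ ^ 3 / W.Δ)) ^ (n + 1) - f k α| ≤ κ' * (f k α) ^ θ →
                hF P (W.c₄ ^ 3 / W.Δ) ≤ κ * Real.log (badNorm W * |(NumberField.discr L : ℝ)| ^ 2) - c) ∧
    (∀ P : ℂ → UpperHalfPlane, (∀ z, jInv (P z) = z) → ∀ (a : ℝ) (f : ℕ → ℝ → ℝ) (τ θ : ℝ), Starshaped a f → 0 ≤ τ →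
        ExpLe a f τ → θ < 1 →
        ∃ E : Set ℝ, dimH E ≤ ENNReal.ofReal (τ / (1 - θ)) ∧
          ∀ α : ℝ, a < α → α ∉ E → ∀ κ' : ℝ, ∀ n : ℕ, 2 ≤ n → ∃ κ C : ℝ, ∀ (k : ℕ)
            (L : IntermediateField ℚ (AlgebraicClosure ℚ)) [NumberField L] (W : WeierstrassCurve L),
              Module.finrank ℚ L = n → W.Δ ≠ 0 → FullTwo W →
              |Real.exp (hF P (W.c₄ ^ 3 / W.Δ)) ^ (n + 1) - f k α| ≤ κ' * (f k α) ^ θ →
                hF P (W.c₄ ^ 3 / W.Δ) ≤ κ * Real.log (badNorm W * |(NumberField.discr L : ℝ)| ^ 2) + C) ∧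
    (∀ (v : ℕ → ℝ) (τ : ℝ), (∀ n, 0 < v n) → (∀ t : ℝ, τ < t → Summable (fun n : ℕ => (v n) ^ (-t))) →
      Starshaped 0 (fun n x => v n * x) ∧ ExpLe 0 (fun n x => v n * x) τ) ∧
    (∀ v : ℕ → ℝ, (∀ n, 1 ≤ v n) → (∀ t : ℝ, 0 < t → Summable fun n : ℕ => Real.exp (-(t * v n))) →
      Starshaped 1 (fun n x => x ^ (v n)) ∧ ExpLe 1 (fun n x => x ^ (v n)) 0) ∧
    (∀ (a : ℝ) (g : ℝ → ℝ), 0 ≤ a → (∀ x y : ℝ, a < x → x ≤ y → g x / x ≤ g y / y) → (∀ x : ℝ, a < x → x < g x) →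
      Starshaped a (fun n x => g^[n] x) ∧ ExpLe a (fun n x => g^[n] x) 0) := by
  obtain ⟨e, he1, he2, he3⟩ := WeilRestrictions.result.1
  refine ⟨⟨fun n => max (e n) 0, fun n => le_max_right _ _, fun n hn => max_le (he2 n hn) ?_,
    fun c hc => ?_, fun P hP a f τ θ hv hτ hE hθ n hn κ hκ => ?_⟩, fun P hP a f τ θ hv hτ hE hθ => ?_,
    Pool.Agent.R482.ST.ex_mul, Pool.Agent.R482.ST.ex_pow, Pool.Agent.R482.ST.ex_orbit⟩
  · exact le_trans (by norm_num) (le_max_left _ _)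
  · have hc0 : 0 < c := lt_trans (by
      have := Real.log_pos (by norm_num : (1 : ℝ) < 2)
      positivity) hc
    filter_upwards [he1 c hc] with n hn
    exact max_le hn (by positivity)
  · obtain ⟨E, h1, h2⟩ := win hP hn hκ (he3 n hn κ · · hκ ·) hv hτ hE hθ
    refine ⟨E, h1, fun α hα hαE c κ' => ?_⟩
    obtain ⟨k₀, hk⟩ := h2 α hα hαE c κ'
    refine ⟨k₀, fun k hk1 L hL W hd hW1 hW2 hw => ?_⟩
    by_contra hcon
    push Not at hcon
    refine absurd (hk k hk1 ⟨⟨L, hL⟩, W.c₄ ^ 3 / W.Δ⟩ ⟨hd, W, hW1, hW2, rfl, ?_⟩) (not_lt.2 hw)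
    show κ * Real.log (badNorm W * |(NumberField.discr L : ℝ)| ^ 2) + -c < hF P (W.c₄ ^ 3 / W.Δ)
    linarith
  · have hall : ∀ n m : ℕ, ∃ E : Set ℝ,
        dimH E ≤ ENNReal.ofReal ((max (e (n + 2)) 0 / (((n + 2 : ℕ) : ℝ) + 1) * (1 / ((m : ℝ) + 1)) + τ) / (1 - θ)) ∧
        ∀ α : ℝ, a < α → α ∉ E → ∀ c κ' : ℝ, ∃ k₀ : ℕ, ∀ k : ℕ, k₀ ≤ k → ∀ p ∈ Exc P (n + 2) ((m : ℝ) + 1) (-c),
          κ' * (f k α) ^ θ < |Real.exp (ht P p) ^ ((n + 2) + 1) - f k α| := by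
      intro n m
      have hm0 : (0 : ℝ) < (m : ℝ) + 1 := by positivity
      obtain ⟨E, h1, h2⟩ := win (n := n + 2) hP (by omega) hm0
        (he3 (n + 2) (by omega) ((m : ℝ) + 1) · · hm0 ·) hv hτ hE hθ
      refine ⟨E, h1.trans (le_of_eq ?_), h2⟩
      congr 2
      field_simp
    choose G hG1 hG2 using hall
    refine ⟨⋃ n, ⋂ m, G n m, ?_, fun α hα hαE κ' n hn => ?_⟩
    · rw [dimH_iUnion]
      refine iSup_le fun n => ?_
      have hlim : Tendsto (fun m : ℕ => ENNReal.ofReal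
          ((max (e (n + 2)) 0 / (((n + 2 : ℕ) : ℝ) + 1) * (1 / ((m : ℝ) + 1)) + τ) / (1 - θ))) atTop
          (𝓝 (ENNReal.ofReal ((max (e (n + 2)) 0 / (((n + 2 : ℕ) : ℝ) + 1) * 0 + τ) / (1 - θ)))) :=
        ENNReal.tendsto_ofReal (((tendsto_one_div_add_atTop_nhds_zero_nat.const_mul _).add_const τ).div_const (1 - θ))
      rw [mul_zero, zero_add] at hlim
      exact ge_of_tendsto' hlim fun m => (dimH_mono (Set.iInter_subset _ m)).trans (hG1 n m)
    · obtain ⟨n, rfl⟩ : ∃ m, n = m + 2 := ⟨n - 2, by omega⟩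
      have h1 : α ∉ ⋂ m, G n m := fun h => hαE (Set.mem_iUnion.2 ⟨n, h⟩)
      rw [Set.mem_iInter] at h1
      push Not at h1
      obtain ⟨m, hm⟩ := h1
      obtain ⟨k₀, hk⟩ := hG2 n m α hα hm 0 κ'
      obtain ⟨C, hC0, hC⟩ : ∃ C : ℝ, 0 ≤ C ∧ ∀ k : ℕ, k < k₀ → f k α + |κ' * (f k α) ^ θ| ≤ C := by
        have hpos : ∀ i, 0 ≤ f i α + |κ' * (f i α) ^ θ| := fun i => by
          have := (hv.2 i α α hα le_rfl).1
          positivity
        exact ⟨∑ k ∈ Finset.range k₀, (f k α + |κ' * (f k α) ^ θ|), Finset.sum_nonneg fun i _ => hpos i, fun k hk =>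
          Finset.single_le_sum (f := fun k => f k α + |κ' * (f k α) ^ θ|) (fun i _ => hpos i) (Finset.mem_range.2 hk)⟩
      refine ⟨(m : ℝ) + 1, C, fun k L hL W hd hW1 hW2 hw => ?_⟩
      have hnn := nonneg W
      have hm0 : (0 : ℝ) < (m : ℝ) + 1 := by positivity
      have hmul : 0 ≤ ((m : ℝ) + 1) * Real.log (badNorm W * |(NumberField.discr L : ℝ)| ^ 2) := mul_nonneg hm0.le hnn
      rcases Nat.lt_or_ge k k₀ with hlt | hge
      · rcases le_or_gt (hF P (W.c₄ ^ 3 / W.Δ)) 0 with h0 | h0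
        · linarith
        · have h3 : Real.exp (hF P (W.c₄ ^ 3 / W.Δ)) ^ ((n + 2) + 1) ≤ C := by
            have := (abs_le.1 hw).2
            have := hC k hlt
            have := le_abs_self (κ' * (f k α) ^ θ)
            linarith
          have h4 : 1 ≤ Real.exp (hF P (W.c₄ ^ 3 / W.Δ)) := Real.one_le_exp h0.le
          have h5 : Real.exp (hF P (W.c₄ ^ 3 / W.Δ)) ≤ Real.exp (hF P (W.c₄ ^ 3 / W.Δ)) ^ ((n + 2) + 1) :=
            le_self_pow₀ h4 (by positivity)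
          have h6 := Real.add_one_le_exp (hF P (W.c₄ ^ 3 / W.Δ))
          linarith
      · by_contra hcon
        push Not at hcon
        refine absurd (hk k hge ⟨⟨L, hL⟩, W.c₄ ^ 3 / W.Δ⟩ ⟨hd, W, hW1, hW2, rfl, ?_⟩) (not_lt.2 hw)
        show ((m : ℝ) + 1) * Real.log (badNorm W * |(NumberField.discr L : ℝ)| ^ 2) + -0 < hF P (W.c₄ ^ 3 / W.Δ)
        linarith

end Pool.Agent.Results.MP_c59389_nt.StarshapedFrey
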